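import Mathlib

/-!
# Square classes in `ℚ_2`

`R z n r` : `z = 2 ^ n * u`, `u` a `2`-adic integer congruent to `r` modulo 8.
-/

set_option autoImplicit false

namespace Pool.Agent.K1H12.PS

open PadicInt

/-- `z = 2 ^ n u`, `u ≡ r` modulo 8 -/
def R (z : ℚ_[2]) (n : ℤ) (r : ZMod 8) : Prop :=
  ∃ u : ℤ_[2], z = (2 : ℚ_[2]) ^ n * (u : ℚ_[2]) ∧ (toZModPow 3 u : ZMod 8) = r

/-- the odd classes -/
def Od (r : ZMod 8) : Prop := r = 1 ∨ r = 3 ∨ r = 5 ∨ r = 7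

instance : DecidablePred Od := fun r => by unfold Od; infer_instance

lemma R.mul {z w : ℚ_[2]} {n m : ℤ} {r s : ZMod 8} (h : R z n r) (h' : R w m s) :
    R (z * w) (n + m) (r * s) := by
  obtain ⟨u, hu, hr⟩ := h
  obtain ⟨v, hv, hs⟩ := h'
  refine ⟨u * v, ?_, ?_⟩
  · rw [hu, hv, zpow_add₀ two_ne_zero]
    push_cast
    ring
  · rw [map_mul]
    subst hr hs
    rfl

lemma R.int (d : ℤ) : R (d : ℚ_[2]) 0 (d : ZMod 8) :=
  ⟨(d : ℤ_[2]), by simp, by rw [map_intCast]⟩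

lemma R.add {z w : ℚ_[2]} {n m : ℤ} {r s : ZMod 8} (k : ℕ) (h : R z n r) (h' : R w m s)
    (hm : m = n + k) : R (z + w) n (r + 2 ^ k * s) := by
  subst hm
  obtain ⟨u, hu, hr⟩ := h
  obtain ⟨v, hv, hs⟩ := h'
  refine ⟨u + 2 ^ k * v, ?_, ?_⟩
  · have h2 : ((2 : ℤ_[2]) : ℚ_[2]) = 2 := rfl
    rw [hu, hv, zpow_add₀ two_ne_zero, zpow_natCast]
    push_cast
    rw [h2]
    ring
  · rw [map_add, map_mul, map_pow, map_ofNat]
    subst hr hs
    rfl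

lemma R.neg {z : ℚ_[2]} {n : ℤ} {r : ZMod 8} (h : R z n r) : R (-z) n (-r) := by
  obtain ⟨u, hu, hr⟩ := h
  refine ⟨-u, ?_, ?_⟩
  · rw [hu]
    push_cast
    ring
  · rw [map_neg]
    subst hr
    rfl

lemma R.shift {z : ℚ_[2]} {n : ℤ} {r : ZMod 8} (k : ℤ) (h : R z n r) :
    R ((2 : ℚ_[2]) ^ k * z) (k + n) r := by
  obtain ⟨u, hu, hr⟩ := h
  refine ⟨u, ?_, hr⟩
  rw [hu, zpow_add₀ two_ne_zero]
  ring

lemma unit_of {u : ℤ_[2]} (h : Od (toZModPow 3 u : ZMod 8)) : IsUnit u := by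
  by_contra hu
  have h1 : u ∈ Ideal.span {(2 : ℤ_[2])} := by
    have := PadicInt.maximalIdeal_eq_span_p (p := 2)
    rw [show ((2 : ℕ) : ℤ_[2]) = 2 from by norm_num] at this
    rw [← this]
    exact hu
  rw [Ideal.mem_span_singleton] at h1
  obtain ⟨v, rfl⟩ := h1
  have h2 : (toZModPow 3 (2 * v) : ZMod 8) = 2 * (toZModPow 3 v : ZMod 8) := by
    rw [map_mul, map_ofNat]
  rw [h2] at h
  generalize (toZModPow 3 v : ZMod 8) = t at h
  revert t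
  decide

lemma od_of {u : ℤ_[2]} (h : IsUnit u) : Od (toZModPow 3 u : ZMod 8) := by
  have h1 : IsUnit (toZModPow 3 u : ZMod (2 ^ 3)) := h.map _
  have h2 : ∀ a : ZMod (2 ^ 3), IsUnit a → Od a := by decide
  exact h2 _ h1

lemma R.exists {z : ℚ_[2]} (hz : z ≠ 0) : ∃ n r, Od r ∧ R z n r := by
  have h1 : ‖z * (2 : ℚ_[2]) ^ (-z.valuation)‖ = 1 := by
    rw [norm_mul, Padic.norm_eq_zpow_neg_valuation hz, norm_zpow]
    have : ‖(2 : ℚ_[2])‖ = (2 : ℝ)⁻¹ := by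
      have := Padic.norm_p (p := 2)
      push_cast at this
      exact this
    rw [this]
    push_cast
    rw [inv_zpow', neg_neg, ← zpow_add₀ (by norm_num)]
    simp
  let u : ℤ_[2] := ⟨z * (2 : ℚ_[2]) ^ (-z.valuation), h1.le⟩
  have hu : IsUnit u := PadicInt.isUnit_iff.2 h1
  refine ⟨z.valuation, _, od_of hu, u, ?_, rfl⟩
  show z = (2 : ℚ_[2]) ^ z.valuation * (z * (2 : ℚ_[2]) ^ (-z.valuation))
  rw [mul_left_comm, ← zpow_add₀ two_ne_zero]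
  simp

lemma R.val {z : ℚ_[2]} {n : ℤ} {r : ZMod 8} (h : R z n r) (hr : Od r) :
    z ≠ 0 ∧ z.valuation = n := by
  obtain ⟨u, hu, hr'⟩ := h
  have h1 : IsUnit u := unit_of (by rw [hr']; exact hr)
  have h2 := PadicInt.isUnit_iff.1 h1
  have h3 : (u : ℚ_[2]) ≠ 0 := by
    intro h
    rw [PadicInt.norm_def, h, norm_zero] at h2
    exact zero_ne_one h2
  have h4 : (u : ℚ_[2]).valuation = 0 := by
    have h4 := Padic.norm_eq_zpow_neg_valuation h3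
    rw [PadicInt.norm_def] at h2
    rw [h2] at h4
    have h6 := zpow_right_injective₀ (a := ((2 : ℕ) : ℝ)) (by norm_num) (by norm_num)
      (show ((2 : ℕ) : ℝ) ^ (0 : ℤ) = ((2 : ℕ) : ℝ) ^ (-(u : ℚ_[2]).valuation) by
        rw [zpow_zero]; exact h4)
    omega
  have h5 : (2 : ℚ_[2]) ^ n ≠ 0 := zpow_ne_zero _ two_ne_zero
  refine ⟨by rw [hu]; exact mul_ne_zero h5 h3, ?_⟩
  rw [hu, Padic.valuation_mul h5 h3, h4, Padic.valuation_zpow]
  have h7 : (2 : ℚ_[2]).valuation = 1 := by exact_mod_cast Padic.valuation_p (p := 2)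
  rw [h7]
  ring

lemma R.unique {z : ℚ_[2]} {n m : ℤ} {r s : ZMod 8} (h : R z n r) (hr : Od r) (h' : R z m s)
    (hs : Od s) : n = m ∧ r = s := by
  have h1 : n = m := (h.val hr).2.symm.trans (h'.val hs).2
  subst h1
  obtain ⟨u, hu, rfl⟩ := h
  obtain ⟨v, hv, rfl⟩ := h'
  have h5 : (2 : ℚ_[2]) ^ n ≠ 0 := zpow_ne_zero _ two_ne_zero
  have h6 : (u : ℚ_[2]) = v := mul_left_cancel₀ h5 (hu.symm.trans hv)
  have h7 : u = v := PadicInt.ext h6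
  rw [h7]
  exact ⟨rfl, rfl⟩

lemma unit_sq {u : ℤ_[2]} (h : (toZModPow 3 u : ZMod 8) = 1) : ∃ v : ℤ_[2], v * v = u := by
  have h0 : toZModPow 3 (u - 1) = 0 := by
    rw [map_sub, map_one, sub_eq_zero]
    exact h
  have h1 : ‖u - 1‖ ≤ ((2 : ℕ) : ℝ) ^ (-((3 : ℕ) : ℤ)) := by
    rw [PadicInt.norm_le_pow_iff_mem_span_pow, ← PadicInt.ker_toZModPow]
    exact h0
  have h2 : ‖(2 : ℤ_[2])‖ = (2 : ℝ)⁻¹ := by
    have := PadicInt.norm_p (p := 2)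
    push_cast at this
    exact this
  obtain ⟨z, hz, -⟩ := hensels_lemma (p := 2) (R := ℤ_[2])
    (F := Polynomial.X ^ 2 - Polynomial.C u) (a := 1) (by
      simp only [Polynomial.coe_aeval_eq_eval, Polynomial.eval_sub, Polynomial.eval_pow,
        Polynomial.eval_X, Polynomial.eval_C, Polynomial.derivative_sub,
        Polynomial.derivative_X_pow, Polynomial.derivative_C, one_pow, sub_zero,
        Polynomial.eval_mul, mul_one]
      rw [norm_sub_rev]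
      have h3 : ‖(2 : ℤ_[2])‖ ^ 2 = (4 : ℝ)⁻¹ := by rw [h2]; norm_num
      refine lt_of_le_of_lt h1 ?_
      norm_num [h3])
  refine ⟨z, ?_⟩
  simp only [Polynomial.coe_aeval_eq_eval, Polynomial.eval_sub, Polynomial.eval_pow,
    Polynomial.eval_X, Polynomial.eval_C] at hz
  rw [← sub_eq_zero, ← hz]
  ring

lemma R.sq {z : ℚ_[2]} {n : ℤ} (h : R z n 1) (hn : Even n) : IsSquare z := by
  obtain ⟨u, hu, hr⟩ := h
  obtain ⟨v, hv⟩ := unit_sq hr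
  obtain ⟨k, rfl⟩ := hn
  refine ⟨(2 : ℚ_[2]) ^ k * v, ?_⟩
  rw [hu, ← hv, zpow_add₀ two_ne_zero]
  push_cast
  ring

lemma R.of_sq {z : ℚ_[2]} {n : ℤ} {r : ZMod 8} (h : R z n r) (hr : Od r) (hz : IsSquare z) :
    Even n ∧ r = 1 := by
  obtain ⟨w, rfl⟩ := hz
  have hw : w ≠ 0 := by
    rintro rfl
    exact (h.val hr).1 (mul_zero _)
  obtain ⟨m, s, hs, hR⟩ := R.exists hw
  have h1 := hR.mul hR
  have h3 : ∀ s : ZMod 8, Od s → s * s = 1 ∧ Od (s * s) := by decide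
  obtain ⟨h4, h5⟩ := h.unique hr h1 (h3 s hs).2
  exact ⟨⟨m, h4⟩, h5.trans (h3 s hs).1⟩

end Pool.Agent.K1H12.PS
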