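import Pool.Agent.K1H81.PS.Stm
import Pool.Agent.K1H12.PS.Two

/-!
# Project PS (helper81): TWON, necessity of the local condition at 2
-/

set_option autoImplicit false

namespace Pool.Agent.K1H12.PS

open Pool.Agent.K1H81.PS

lemma od_int {d : ℤ} (h : d % 2 = 1) : Od (d : ZMod 8) := by
  have h1 : (d : ZMod 8) = ((d % 8 : ℤ) : ZMod 8) := by
    rw [ZMod.intCast_eq_intCast_iff]
    show d % ((8 : ℕ) : ℤ) = (d % 8) % ((8 : ℕ) : ℤ)
    push_cast
    omega
  have h2 : d % 8 = 1 ∨ d % 8 = 3 ∨ d % 8 = 5 ∨ d % 8 = 7 := by omega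
  rw [h1]
  rcases h2 with h2 | h2 | h2 | h2 <;> rw [h2] <;> decide

lemma cast_mod {d k : ℤ} (h : d % 8 = k) : (d : ZMod 8) = (k : ZMod 8) := by
  rw [ZMod.intCast_eq_intCast_iff]
  show d % ((8 : ℕ) : ℤ) = k % ((8 : ℕ) : ℤ)
  push_cast
  omega

lemma mod_of_cast {d k : ℤ} (h : (d : ZMod 8) = (k : ZMod 8)) : d % 8 = k % 8 := by
  rw [ZMod.intCast_eq_intCast_iff] at h
  exact h

lemma int_class {d : ℤ} (hd : Squarefree d) :
    (¬ (2 : ℤ) ∣ d ∧ Od (d : ZMod 8) ∧ R d 0 (d : ZMod 8)) ∨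
      ((2 : ℤ) ∣ d ∧ ∃ r, Od r ∧ R d 1 r) := by
  by_cases h : (2 : ℤ) ∣ d
  · right
    refine ⟨h, ?_⟩
    obtain ⟨e, rfl⟩ := h
    have he : e % 2 = 1 := by
      rcases Int.emod_two_eq_zero_or_one e with h' | h'
      · exfalso
        obtain ⟨f, rfl⟩ : (2 : ℤ) ∣ e := Int.dvd_of_emod_eq_zero h'
        have := hd 2 ⟨f, by ring⟩
        rw [Int.isUnit_iff] at this
        omega
      · exact h'
    refine ⟨(e : ZMod 8), od_int he, ?_⟩
    have := (R.int e).shift 1
    rw [zpow_one, add_zero] at this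
    push_cast
    exact this
  · left
    exact ⟨h, od_int (by omega), R.int d⟩

lemma c_class {c : ℤ} (hc : c ≠ 0) : ∃ r, Od r ∧ R (c : ℚ_[2]) (padicValInt 2 c) r := by
  have hc' : (c : ℚ_[2]) ≠ 0 := by exact_mod_cast hc
  obtain ⟨n, r, hr, hR⟩ := R.exists hc'
  refine ⟨r, hr, ?_⟩
  have h1 := (hR.val hr).2
  rw [Padic.valuation_intCast] at h1
  rw [h1]
  exact hR

lemma c16_class {c : ℤ} (hc : c ≠ 0) :
    ∃ r, Od r ∧ R (-(((16 * c : ℤ)) : ℚ_[2])) (4 + padicValInt 2 c) r := by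
  obtain ⟨r, hr, hR⟩ := c_class hc
  refine ⟨-r, ?_, ?_⟩
  · clear hR
    revert r
    decide
  · have h1 := (hR.shift 4).neg
    have h2 : (2 : ℚ_[2]) ^ (4 : ℤ) * (c : ℚ_[2]) = ((16 * c : ℤ) : ℚ_[2]) := by
      push_cast
      norm_num
    rw [h2] at h1
    exact h1

/-- `2 ^ k = 0` modulo 8 -/
lemma two_pow {k : ℕ} (hk : 3 ≤ k) : (2 : ZMod 8) ^ k = 0 := by
  obtain ⟨j, rfl⟩ := Nat.exists_eq_add_of_le hk
  rw [pow_add, show (2 : ZMod 8) ^ 3 = 0 from by decide, zero_mul]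

lemma core {b c : ℤ} (hb : b % 4 = 1) (hc : c ≠ 0) {x : ℚ_[2]} {v : ℤ} {r : ZMod 8}
    (hR : R x v r) (hr : Od r) (h1 : x + b ≠ 0) (h2 : x + -((16 * c : ℤ) : ℚ_[2]) ≠ 0)
    (hsq : IsSquare (x * (x + b) * (x + -((16 * c : ℤ) : ℚ_[2])))) :
    ∃ m s, R (x + b) m s ∧ Even m ∧ (s = 1 ∨ s = 5) ∧ (c % 2 = 1 → Even v) ∧
      (c % 2 = 0 → b % 8 = 1 → s = 1) ∧
      (c % 2 = 0 → b % 8 = 5 → (Odd v ↔ Odd (padicValInt 2 c) ∧ s = 5)) := by
  obtain ⟨q, hq, hQ⟩ := c16_class hc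
  have hB := R.int b
  set g : ℕ := padicValInt 2 c with hg
  have hg0 : c % 2 = 1 → g = 0 := by
    intro h
    refine padicValInt.eq_zero_of_not_dvd ?_
    push_cast
    omega
  have hg1 : c % 2 = 0 → 1 ≤ g := by
    intro h
    have h3 : ((2 : ℕ) : ℤ) ^ 1 ∣ c := by
      push_cast
      omega
    rw [padicValInt_dvd_iff] at h3
    exact h3.resolve_left hc
  have hβ : (b : ZMod 8) = 1 ∨ (b : ZMod 8) = 5 := by
    have : b % 8 = 1 ∨ b % 8 = 5 := by omega
    rcases this with h | h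
    · left
      rw [cast_mod h]
      rfl
    · right
      rw [cast_mod h]
      rfl
  have hb1 : b % 8 = 1 → (b : ZMod 8) = 1 := fun h => by rw [cast_mod h]; rfl
  have hb5 : b % 8 = 5 → (b : ZMod 8) = 5 := fun h => by rw [cast_mod h]; rfl
  have hb1' : (b : ZMod 8) = 1 → b % 8 = 1 := fun h => mod_of_cast (k := 1) (by rw [h]; rfl)
  have hb5' : (b : ZMod 8) = 5 → b % 8 = 5 := fun h => mod_of_cast (k := 5) (by rw [h]; rfl)
  generalize (b : ZMod 8) = β at *
  generalize (((16 * c : ℤ)) : ℚ_[2]) = C at *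
  rcases lt_or_ge v 0 with hv | hv
  · -- negative valuation
    obtain ⟨k, hk⟩ := Int.eq_ofNat_of_zero_le (a := -v) (by omega)
    have e1 := hR.add k hB (by omega)
    have e2 := hR.add (4 + g + k) hQ (by push_cast; omega)
    rw [two_pow (by omega), zero_mul, add_zero] at e2
    have e3 := (hR.mul e1).mul e2
    have hod : Od (r * (r + 2 ^ k * β) * r) ∧ Od (r + 2 ^ k * β) ∧
        (r * (r + 2 ^ k * β) * r = r + 2 ^ k * β) := by
      obtain ⟨k, rfl⟩ : ∃ j, k = j + 1 := ⟨k - 1, by omega⟩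
      rw [pow_succ]
      generalize (2 : ZMod 8) ^ k = t
      clear hb1 hb5 hb1' hb5' hB hQ e1 e2 e3 hR
      revert r t
      rcases hβ with rfl | rfl <;> decide
    obtain ⟨f1, f2⟩ := e3.of_sq hod.1 hsq
    rw [hod.2.2] at f2
    rw [f2] at e1
    have hve : Even v := by
      obtain ⟨j, hj⟩ := f1
      exact ⟨j - v, by omega⟩
    have hvo : ¬ Odd v := Int.not_odd_iff_even.2 hve
    refine ⟨v, 1, e1, hve, Or.inl rfl, fun _ => hve, fun _ _ => rfl, fun _ _ => ?_⟩
    have : ¬ ((1 : ZMod 8) = 5) := by decide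
    tauto
  obtain ⟨n, rfl⟩ := Int.eq_ofNat_of_zero_le hv
  have hn : n = 0 ∨ n = 1 ∨ n = 2 ∨ n = 3 ∨ 4 ≤ n := by omega
  rcases hn with rfl | rfl | rfl | rfl | hn
  · -- valuation 0
    have e2 := hR.add (4 + g) hQ (by push_cast; omega)
    rw [two_pow (by omega), zero_mul, add_zero] at e2
    obtain ⟨m, s, hs, hS⟩ := R.exists h1
    have e3 := (hR.mul hS).mul e2
    have hod : Od (r * s * r) ∧ r * s * r = s := by
      clear hb1 hb5 hb1' hb5' hB hQ e2 e3 hR hS
      revert r s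
      decide
    obtain ⟨f1, f2⟩ := e3.of_sq hod.1 hsq
    rw [hod.2] at f2
    subst f2
    have hm : Even m := by
      obtain ⟨j, hj⟩ := f1
      exact ⟨j, by push_cast at hj; omega⟩
    have hve : Even (((0 : ℕ) : ℤ)) := by simp
    have hvo : ¬ Odd (((0 : ℕ) : ℤ)) := Int.not_odd_iff_even.2 hve
    refine ⟨m, 1, hS, hm, Or.inl rfl, fun _ => hve, fun _ _ => rfl, fun _ _ => ?_⟩
    have : ¬ ((1 : ZMod 8) = 5) := by decide
    tauto
  · -- valuation 1
    exfalso
    have e2 := hR.add (3 + g) hQ (by push_cast; omega)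
    rw [two_pow (k := 3 + g) (by omega), zero_mul, add_zero] at e2
    have e1 := hB.add 1 hR (by norm_num)
    rw [add_comm] at e1
    have e3 := (hR.mul e1).mul e2
    have hod : Od (r * (β + 2 ^ 1 * r) * r) ∧ r * (β + 2 ^ 1 * r) * r ≠ 1 := by
      clear hb1 hb5 hb1' hb5' hB hQ e1 e2 e3 hR
      revert r
      rcases hβ with rfl | rfl <;> decide
    exact hod.2 (e3.of_sq hod.1 hsq).2
  · -- valuation 2
    have e1 := hB.add 2 hR (by norm_num)
    rw [add_comm] at e1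
    have e2 := hR.add (2 + g) hQ (by push_cast; omega)
    have e3 := (hR.mul e1).mul e2
    have hve : Even (((2 : ℕ) : ℤ)) := by decide
    have hvo : ¬ Odd (((2 : ℕ) : ℤ)) := Int.not_odd_iff_even.2 hve
    rcases Int.emod_two_eq_zero_or_one c with h | h
    · rw [two_pow (k := 2 + g) (by have := hg1 h; omega), zero_mul, add_zero] at e2
      replace e3 := (hR.mul e1).mul e2
      have hod : Od (r * (β + 2 ^ 2 * r) * r) ∧
          (r * (β + 2 ^ 2 * r) * r = 1 → β = 5 ∧ β + 2 ^ 2 * r = 1) := by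
        clear hb1 hb5 hb1' hb5' hB hQ e1 e2 e3 hR
        revert r
        rcases hβ with rfl | rfl <;> decide
      obtain ⟨f1, f2⟩ := hod.2 (e3.of_sq hod.1 hsq).2
      rw [f2] at e1
      refine ⟨0, 1, e1, by simp, Or.inl rfl, fun _ => hve, fun _ _ => rfl, fun _ _ => ?_⟩
      have h7 : ¬ ((1 : ZMod 8) = 5) := by decide
      exact ⟨fun h8 => absurd h8 hvo, fun h8 => absurd h8.2 h7⟩
    · rw [hg0 h] at e3
      have hod : Od (r * (β + 2 ^ 2 * r) * (r + 2 ^ (2 + 0) * q)) ∧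
          (r * (β + 2 ^ 2 * r) * (r + 2 ^ (2 + 0) * q) = 1 → β + 2 ^ 2 * r = 5) := by
        clear hb1 hb5 hb1' hb5' hB hQ e1 e2 e3 hR
        revert r q
        rcases hβ with rfl | rfl <;> decide
      have f2 := hod.2 (e3.of_sq hod.1 hsq).2
      rw [f2] at e1
      exact ⟨0, 5, e1, by simp, Or.inr rfl, fun _ => hve, fun h' => by omega,
        fun h' => by omega⟩
  · -- valuation 3
    have e1 := hB.add 3 hR (by norm_num)
    rw [add_comm, two_pow le_rfl, zero_mul, add_zero] at e1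
    have e2 := hR.add (1 + g) hQ (by push_cast; omega)
    have e3 := (hR.mul e1).mul e2
    have hvo : Odd (((3 : ℕ) : ℤ)) := by decide
    have hg' : g = 0 ∨ g = 1 ∨ 2 ≤ g := by omega
    rcases hg' with h | h | h
    · exfalso
      rw [h] at e3
      have hod : Od (r * β * (r + 2 ^ (1 + 0) * q)) ∧ r * β * (r + 2 ^ (1 + 0) * q) ≠ 1 := by
        clear hb1 hb5 hb1' hb5' hB hQ e1 e2 e3 hR
        revert r q
        rcases hβ with rfl | rfl <;> decide
      exact hod.2 (e3.of_sq hod.1 hsq).2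
    · rw [h] at e3
      have hod : Od (r * β * (r + 2 ^ (1 + 1) * q)) ∧
          (r * β * (r + 2 ^ (1 + 1) * q) = 1 → β = 5) := by
        clear hb1 hb5 hb1' hb5' hB hQ e1 e2 e3 hR
        revert r q
        rcases hβ with rfl | rfl <;> decide
      have f2 := hod.2 (e3.of_sq hod.1 hsq).2
      refine ⟨0, β, e1, by simp, hβ, fun h' => ?_, fun _ h' => hb1 h', fun _ _ => ?_⟩
      · have := hg0 h'
        omega
      · rw [h]
        exact ⟨fun _ => ⟨odd_one, f2⟩, fun _ => hvo⟩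
    · rw [two_pow (k := 1 + g) (by omega), zero_mul, add_zero] at e2
      replace e3 := (hR.mul e1).mul e2
      have hod : Od (r * β * r) ∧ (r * β * r = 1 → β = 1) := by
        clear hb1 hb5 hb1' hb5' hB hQ e1 e2 e3 hR
        revert r
        rcases hβ with rfl | rfl <;> decide
      have f2 := hod.2 (e3.of_sq hod.1 hsq).2
      refine ⟨0, β, e1, by simp, hβ, fun h' => ?_, fun _ h' => hb1 h', fun _ h' => ?_⟩
      · have := hg0 h'
        omega
      · have := hb1' f2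
        omega
  · -- valuation at least 4
    have e1 := hB.add n hR (by push_cast; omega)
    rw [add_comm, two_pow (by omega), zero_mul, add_zero] at e1
    rcases lt_trichotomy n (4 + g) with h | h | h
    · obtain ⟨k, hk⟩ := Nat.exists_eq_add_of_le h.le
      have e2 := hR.add k hQ (by omega)
      have e3 := (hR.mul e1).mul e2
      have hk' : k = 1 ∨ k = 2 ∨ 3 ≤ k := by omega
      rcases hk' with rfl | rfl | hk'
      · exfalso
        have hod : Od (r * β * (r + 2 ^ 1 * q)) ∧ r * β * (r + 2 ^ 1 * q) ≠ 1 := by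
          clear hb1 hb5 hb1' hb5' hB hQ e1 e2 e3 hR
          revert r q
          rcases hβ with rfl | rfl <;> decide
        exact hod.2 (e3.of_sq hod.1 hsq).2
      · have hod : Od (r * β * (r + 2 ^ 2 * q)) ∧
            (r * β * (r + 2 ^ 2 * q) = 1 → β = 5) := by
          clear hb1 hb5 hb1' hb5' hB hQ e1 e2 e3 hR
          revert r q
          rcases hβ with rfl | rfl <;> decide
        have f2 := hod.2 (e3.of_sq hod.1 hsq).2
        refine ⟨0, β, e1, by simp, hβ, fun h' => ?_, fun _ h' => hb1 h', fun _ _ => ?_⟩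
        · have := hg0 h'
          omega
        · constructor
          · rintro ⟨j, hj⟩
            exact ⟨⟨(j - 1).toNat, by omega⟩, f2⟩
          · rintro ⟨⟨j, hj⟩, -⟩
            exact ⟨j + 1, by omega⟩
      · rw [two_pow hk', zero_mul, add_zero] at e2
        replace e3 := (hR.mul e1).mul e2
        have hod : Od (r * β * r) ∧ (r * β * r = 1 → β = 1) := by
          clear hb1 hb5 hb1' hb5' hB hQ e1 e2 e3 hR
          revert r
          rcases hβ with rfl | rfl <;> decide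
        have f2 := hod.2 (e3.of_sq hod.1 hsq).2
        refine ⟨0, β, e1, by simp, hβ, fun h' => ?_, fun _ h' => hb1 h', fun _ h' => ?_⟩
        · have := hg0 h'
          omega
        · have := hb1' f2
          omega
    · refine ⟨0, β, e1, by simp, hβ, fun h' => ?_, fun _ h' => hb1 h', fun _ h' => ?_⟩
      · have := hg0 h'
        exact ⟨2, by omega⟩
      · constructor
        · rintro ⟨j, hj⟩
          exact ⟨⟨(j - 2).toNat, by omega⟩, hb5 h'⟩
        · rintro ⟨⟨j, hj⟩, -⟩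
          exact ⟨j + 2, by omega⟩
    · obtain ⟨k, hk⟩ := Nat.exists_eq_add_of_le h.le
      have e2 := hQ.add k hR (by push_cast; omega)
      rw [add_comm (-C) x] at e2
      have e3 := (hR.mul e1).mul e2
      have hod : Od (r * β * (q + 2 ^ k * r)) := by
        obtain ⟨k, rfl⟩ : ∃ j, k = j + 1 := ⟨k - 1, by omega⟩
        rw [pow_succ]
        generalize (2 : ZMod 8) ^ k = t
        clear hb1 hb5 hb1' hb5' hB hQ e1 e2 e3 hR
        revert r q t
        rcases hβ with rfl | rfl <;> decide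
      obtain ⟨j, hj⟩ := (e3.of_sq hod hsq).1
      refine ⟨0, β, e1, by simp, hβ, fun h' => ?_, fun _ h' => hb1 h', fun _ h' => ?_⟩
      · have := hg0 h'
        exact ⟨j - 2, by omega⟩
      · constructor
        · rintro ⟨i, hi⟩
          exact ⟨⟨(j - i - 3).toNat, by omega⟩, hb5 h'⟩
        · rintro ⟨⟨i, hi⟩, -⟩
          exact ⟨j - i - 3, by omega⟩

/-- **Task PS5.** -/
theorem t_TWON : S_TWON := by
  intro b c d1 d2 d3 hb hc hbc hT _
  rintro ⟨x, y, hy, hxy, s1, s2, s3⟩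
  obtain ⟨q1, q2, q3, -⟩ := hT
  have hy2 : y ^ 2 ≠ 0 := pow_ne_zero 2 hy
  rw [hxy] at hy2
  rw [mul_ne_zero_iff, mul_ne_zero_iff] at hy2
  obtain ⟨⟨hx0, hx1⟩, hx2⟩ := hy2
  have e0 : x - 0 = x := sub_zero x
  have e1 : x - ((-b : ℤ) : ℚ_[2]) = x + (b : ℚ_[2]) := by push_cast; ring
  have e2 : x - ((16 * c : ℤ) : ℚ_[2]) = x + -((16 * c : ℤ) : ℚ_[2]) := sub_eq_add_neg _ _
  rw [e0] at hx0 s1 hxy
  rw [e1] at hx1 s2 hxy
  rw [e2] at hx2 s3 hxy
  obtain ⟨v, r, hr, hR⟩ := R.exists hx0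
  obtain ⟨m, s, hS, hm, hs, g1, g2, g3⟩ := core hb hc hR hr hx1 hx2 ⟨y, by rw [← hxy]; ring⟩
  have hso : Od s := by
    rcases hs with rfl | rfl <;> decide
  have od_mul : ∀ a b : ZMod 8, Od a → Od b → Od (a * b) := by decide
  -- the class of `d2`
  have k2 : ¬ (2 : ℤ) ∣ d2 ∧ (d2 : ZMod 8) = s := by
    rcases int_class q2 with ⟨a1, a2, a3⟩ | ⟨a1, t, a2, a3⟩
    · refine ⟨a1, ?_⟩
      have h1 := ((hS.mul a3).of_sq (od_mul _ _ hso a2) s2).2
      clear a3 hS g2 g3
      generalize (d2 : ZMod 8) = t at *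
      revert t
      rcases hs with rfl | rfl <;> decide
    · exfalso
      obtain ⟨i, hi⟩ := ((hS.mul a3).of_sq (od_mul _ _ hso a2) s2).1
      obtain ⟨j, hj⟩ := hm
      omega
  have k1 : (2 : ℤ) ∣ d1 ↔ Odd v := by
    rcases int_class q1 with ⟨a1, a2, a3⟩ | ⟨a1, t, a2, a3⟩
    · obtain ⟨i, hi⟩ := ((hR.mul a3).of_sq (od_mul _ _ hr a2) s1).1
      refine ⟨fun h => absurd h a1, ?_⟩
      rintro ⟨j, hj⟩
      omega
    · obtain ⟨i, hi⟩ := ((hR.mul a3).of_sq (od_mul _ _ hr a2) s1).1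
      exact ⟨fun _ => ⟨i - 1, by omega⟩, fun _ => a1⟩
  have h4 : d2 % 4 = 1 := by
    rcases hs with rfl | rfl
    · have := mod_of_cast (k := 1) (k2.2.trans (by rfl))
      omega
    · have := mod_of_cast (k := 5) (k2.2.trans (by rfl))
      omega
  refine ⟨h4, ?_⟩
  split_ifs with i1 i2
  · rw [k1, Int.not_odd_iff_even]
    exact g1 i1
  · have h5 := g2 (by omega) i2
    rw [h5] at k2
    exact mod_of_cast (k := 1) (k2.2.trans (by rfl))
  · have h5 := g3 (by omega) (by omega)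
    rw [k1, h5]
    have h6 : s = 5 ↔ d2 % 8 = 5 := by
      constructor
      · intro h
        rw [h] at k2
        exact mod_of_cast (k := 5) (k2.2.trans (by rfl))
      · intro h
        rw [← k2.2, cast_mod h]
        rfl
    rw [h6]

end Pool.Agent.K1H12.PS
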