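import Pool.Agent.K1H12.PS.TWON

/-!
# Project PS (helper81): TWOS, sufficiency of the local condition at 2
-/

set_option autoImplicit false

namespace Pool.Agent.K1H12.PS

open Pool.Agent.K1H81.PS

lemma Lk.congr {K : Type} [Field K] {e1 e2 e3 u1 u2 u3 w1 w2 w3 : K}
    (h : Lk K e1 e2 e3 u1 u2 u3) (n1 : u1 ≠ 0) (n2 : u2 ≠ 0) (n3 : u3 ≠ 0)
    (s1 : IsSquare (u1 * w1)) (s2 : IsSquare (u2 * w2)) (s3 : IsSquare (u3 * w3)) :
    Lk K e1 e2 e3 w1 w2 w3 := by
  obtain ⟨x, y, hy, hxy, t1, t2, t3⟩ := h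
  have key : ∀ {a u w : K}, u ≠ 0 → IsSquare (a * u) → IsSquare (u * w) → IsSquare (a * w) := by
    rintro a u w hu ⟨p, hp⟩ ⟨q, hq⟩
    refine ⟨p * q / u, ?_⟩
    have : a * w = (a * u) * (u * w) / (u * u) := by
      field_simp
    rw [this, hp, hq]
    field_simp
  exact ⟨x, y, hy, hxy, key n1 t1 s1, key n2 t2 s2, key n3 t3 s3⟩

lemma Lk.swap {K : Type} [Field K] {e1 e2 e3 u1 u2 u3 : K}
    (h : Lk K e1 e2 e3 u1 u2 u3) : Lk K e2 e1 e3 u2 u1 u3 := by
  obtain ⟨x, y, hy, hxy, t1, t2, t3⟩ := h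
  exact ⟨x, y, hy, by rw [hxy]; ring, t2, t1, t3⟩

/-- the classes of the points, two coordinates -/
def L (b c : ℤ) (u w : ℚ_[2]) : Prop := Lk ℚ_[2] 0 (-b : ℤ) (16 * c : ℤ) u w (u * w)

/-- a class of the group -/
def P (b c : ℤ) (n : ℤ) (r s : ZMod 8) : Prop :=
  Od r ∧ Od s ∧ ∃ u w m, Even m ∧ R u n r ∧ R w m s ∧ L b c u w

lemma od_mul {a b : ZMod 8} (ha : Od a) (hb : Od b) : Od (a * b) := by
  revert a b
  decide

lemma od_sq {a : ZMod 8} (ha : Od a) : a * a = 1 := by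
  revert a
  decide

section

variable {b c : ℤ}

lemma P.mul (hM : S_MUL) (hb : b % 4 = 1) (hc : c ≠ 0) (hbc : b + 16 * c ≠ 0)
    {n n' : ℤ} {r s r' s' : ZMod 8} (h : P b c n r s) (h' : P b c n' r' s') :
    P b c (n + n') (r * r') (s * s') := by
  obtain ⟨h1, h2, u, w, m, hm, hu, hw, hL⟩ := h
  obtain ⟨h1', h2', u', w', m', hm', hu', hw', hL'⟩ := h'
  refine ⟨od_mul h1 h1', od_mul h2 h2', u * u', w * w', m + m', hm.add hm', hu.mul hu',
    hw.mul hw', ?_⟩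
  have h3 := hM 2 0 (-b : ℤ) (16 * c : ℤ) u w (u * w) u' w' (u' * w') (by
    intro h
    have : (0 : ℤ) = -b := by exact_mod_cast h
    omega) (by
    intro h
    have : (0 : ℤ) = 16 * c := by exact_mod_cast h
    omega) (by
    intro h
    have : -b = 16 * c := by exact_mod_cast h
    omega) hL hL'
  unfold L
  rw [show u * u' * (w * w') = u * w * (u' * w') from by ring]
  exact h3

lemma P.all {n : ℤ} {r s : ZMod 8} (h : P b c n r s) {u' w' : ℚ_[2]} {n' m' : ℤ}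
    (hu' : R u' n' r) (hw' : R w' m' s) (hn : Even (n + n')) (hm' : Even m') : L b c u' w' := by
  obtain ⟨h1, h2, u, w, m, hm, hu, hw, hL⟩ := h
  have u0 := (hu.val h1).1
  have w0 := (hw.val h2).1
  have s1 : IsSquare (u * u') := by
    have := hu.mul hu'
    rw [od_sq h1] at this
    exact this.sq hn
  have s2 : IsSquare (w * w') := by
    have := hw.mul hw'
    rw [od_sq h2] at this
    exact this.sq (hm.add hm')
  refine Lk.congr hL u0 w0 (mul_ne_zero u0 w0) s1 s2 ?_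
  rw [show u * w * (u' * w') = u * u' * (w * w') from by ring]
  exact s1.mul s2

/-- a point -/
lemma P.pt {x : ℚ_[2]} {n m k : ℤ} {r s t : ZMod 8} (h1 : R x n r) (h2 : R (x + b) m s)
    (h3 : R (x + -((16 * c : ℤ) : ℚ_[2])) k t) (hr : Od r) (hs : Od s) (ht : Od t)
    (hm : Even m) (hk : Even (n + m + k)) (he : r * s * t = 1) : P b c n r s := by
  refine ⟨hr, hs, x, x + b, m, hm, h1, h2, ?_⟩
  have h4 := (h1.mul h2).mul h3
  rw [he] at h4
  obtain ⟨y, hy⟩ := h4.sq hk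
  have hne : x * (x + b) * (x + -((16 * c : ℤ) : ℚ_[2])) ≠ 0 :=
    mul_ne_zero (mul_ne_zero (h1.val hr).1 (h2.val hs).1) (h3.val ht).1
  have e0 : x - 0 = x := sub_zero x
  have e1 : x - ((-b : ℤ) : ℚ_[2]) = x + (b : ℚ_[2]) := by push_cast; ring
  have e2 : x - ((16 * c : ℤ) : ℚ_[2]) = x + -((16 * c : ℤ) : ℚ_[2]) := sub_eq_add_neg _ _
  refine ⟨x, y, ?_, ?_, ?_, ?_, ?_⟩
  · rintro rfl
    rw [mul_zero] at hy
    exact hne hy
  · rw [e0, e1, e2, hy]
    ring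
  · rw [e0]
    exact ⟨x, rfl⟩
  · rw [e1]
    exact ⟨_, rfl⟩
  · rw [e2]
    exact ⟨y, by rw [← hy]; ring⟩

lemma P.tor0 (hT : S_TOR) (hb : b % 4 = 1) (hc : c ≠ 0) (hbc : b + 16 * c ≠ 0) {q : ZMod 8}
    (hq : Od q) (hQ : R (-((16 * c : ℤ) : ℚ_[2])) (4 + padicValInt 2 c) q) :
    P b c (4 + padicValInt 2 c) (b * q) b := by
  have hB := R.int b
  have hbo : Od (b : ZMod 8) := od_int (by omega)
  have h1 := hB.mul hQ
  rw [zero_add] at h1
  refine ⟨od_mul hbo hq, hbo, _, _, 0, by simp, h1, hB, ?_⟩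
  have h3 := (hT 2 0 (-b : ℤ) (16 * c : ℤ) (by
    intro h
    have : (0 : ℤ) = -b := by exact_mod_cast h
    omega) (by
    intro h
    have : (0 : ℤ) = 16 * c := by exact_mod_cast h
    omega) (by
    intro h
    have : -b = 16 * c := by exact_mod_cast h
    omega)).1
  have b0 : (b : ℚ_[2]) ≠ 0 := (hB.val hbo).1
  have c0 : -((16 * c : ℤ) : ℚ_[2]) ≠ 0 := (hQ.val hq).1
  have e1 : (0 : ℚ_[2]) - ((-b : ℤ) : ℚ_[2]) = b := by push_cast; ring
  have e2 : (0 : ℚ_[2]) - ((16 * c : ℤ) : ℚ_[2]) = -((16 * c : ℤ) : ℚ_[2]) := zero_sub _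
  rw [e1, e2] at h3
  refine Lk.congr h3 (mul_ne_zero b0 c0) b0 c0 ⟨_, rfl⟩ ⟨_, rfl⟩ ?_
  exact ⟨b * -((16 * c : ℤ) : ℚ_[2]), by ring⟩

lemma P.torb (hT : S_TOR) (hb : b % 4 = 1) (hc : c ≠ 0) (hbc : b + 16 * c ≠ 0) :
    P b c 0 (-b) 1 := by
  have hB := R.int b
  have hbo : Od (b : ZMod 8) := od_int (by omega)
  have hB' := R.int (b + 16 * c)
  have e0 : ((b + 16 * c : ℤ) : ZMod 8) = b := by
    push_cast
    rw [show (16 : ZMod 8) = 0 from by decide]
    ring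
  rw [e0] at hB'
  have h1 := hB.mul hB'
  rw [zero_add, od_sq hbo] at h1
  have hbo' : Od (-b : ZMod 8) := by
    revert hbo
    generalize (b : ZMod 8) = t
    revert t
    decide
  refine ⟨hbo', by decide, _, _, 0, by simp, hB.neg, h1, ?_⟩
  have h3 := (hT 2 (-b : ℤ) 0 (16 * c : ℤ) (by
    intro h
    have : -b = (0 : ℤ) := by exact_mod_cast h
    omega) (by
    intro h
    have : -b = 16 * c := by exact_mod_cast h
    omega) (by
    intro h
    have : (0 : ℤ) = 16 * c := by exact_mod_cast h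
    omega)).1
  have b0 : (b : ℚ_[2]) ≠ 0 := (hB.val hbo).1
  have c0 : ((b + 16 * c : ℤ) : ℚ_[2]) ≠ 0 := (hB'.val hbo).1
  have e1 : ((-b : ℤ) : ℚ_[2]) - 0 = -b := by push_cast; ring
  have e2 : ((-b : ℤ) : ℚ_[2]) - ((16 * c : ℤ) : ℚ_[2]) = -((b + 16 * c : ℤ) : ℚ_[2]) := by
    push_cast; ring
  rw [e1, e2] at h3
  refine Lk.congr (Lk.swap h3) (neg_ne_zero.2 b0)
    (mul_ne_zero (neg_ne_zero.2 b0) (neg_ne_zero.2 c0)) (neg_ne_zero.2 c0) ⟨_, rfl⟩
    ⟨b * ((b + 16 * c : ℤ) : ℚ_[2]), by ring⟩ ?_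
  exact ⟨b * ((b + 16 * c : ℤ) : ℚ_[2]), by ring⟩

/-- all unit classes -/
lemma P.unit (hM : S_MUL) (hT : S_TOR) (hb : b % 4 = 1) (hc : c ≠ 0) (hbc : b + 16 * c ≠ 0)
    {r : ZMod 8} (hr : Od r) : ∃ n, Even n ∧ P b c n r 1 := by
  have hB := R.int b
  obtain ⟨q, hq, hQ⟩ := c16_class hc
  have hbo : Od (b : ZMod 8) := od_int (by omega)
  -- the point with x = 5 / 4
  have hx : R ((2 : ℚ_[2]) ^ (-2 : ℤ) * ((5 : ℤ) : ℚ_[2])) (-2) ((5 : ℤ) : ZMod 8) := by
    have := (R.int 5).shift (-2)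
    rw [add_zero] at this
    exact this
  have hx1 := hx.add 2 hB (by norm_num)
  have hx2 := hx.add (6 + padicValInt 2 c) hQ (by push_cast; ring)
  rw [two_pow (k := 6 + padicValInt 2 c) (by omega), zero_mul, add_zero] at hx2
  have f1 : ((5 : ℤ) : ZMod 8) + 2 ^ 2 * (b : ZMod 8) = 1 := by
    revert hbo
    generalize (b : ZMod 8) = t
    revert t
    decide
  rw [f1] at hx1
  have p5 : P b c (-2) 5 1 := P.pt hx hx1 hx2 (by decide) (by decide) (by decide) (by decide)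
    (by decide) (by decide)
  have pb : P b c 0 (-b) 1 := P.torb hT hb hc hbc
  have hβ : (b : ZMod 8) = 1 ∨ (b : ZMod 8) = 5 := by
    have : b % 8 = 1 ∨ b % 8 = 5 := by omega
    rcases this with h | h
    · left
      rw [cast_mod h]
      rfl
    · right
      rw [cast_mod h]
      rfl
  have p1 := P.mul hM hb hc hbc p5 p5
  have p3 := P.mul hM hb hc hbc p5 pb
  rw [show (1 : ZMod 8) * 1 = 1 from by decide] at p1 p3
  rw [show (5 : ZMod 8) * 5 = 1 from by decide] at p1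
  rcases hβ with hβ | hβ
  · rw [hβ, show (-1 : ZMod 8) = 7 from by decide] at pb
    rw [hβ, show (5 : ZMod 8) * (-1) = 3 from by decide] at p3
    rcases hr with rfl | rfl | rfl | rfl
    · exact ⟨_, by decide, p1⟩
    · exact ⟨_, by decide, p3⟩
    · exact ⟨_, by decide, p5⟩
    · exact ⟨_, by decide, pb⟩
  · rw [hβ, show (-5 : ZMod 8) = 3 from by decide] at pb
    rw [hβ, show (5 : ZMod 8) * (-5) = 7 from by decide] at p3
    rcases hr with rfl | rfl | rfl | rfl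
    · exact ⟨_, by decide, p1⟩
    · exact ⟨_, by decide, pb⟩
    · exact ⟨_, by decide, p5⟩
    · exact ⟨_, by decide, p3⟩

/-- from one class of given parity to all -/
lemma P.fin (hM : S_MUL) (hT : S_TOR) (hb : b % 4 = 1) (hc : c ≠ 0) (hbc : b + 16 * c ≠ 0)
    {n : ℤ} {r0 s : ZMod 8} (h : P b c n r0 s) {u w : ℚ_[2]} {n' m' : ℤ} {r : ZMod 8}
    (hr : Od r) (hu : R u n' r) (hw : R w m' s) (hn : Even (n + n')) (hm' : Even m') :
    L b c u w := by
  obtain ⟨k, hk, hP⟩ := P.unit hM hT hb hc hbc (od_mul h.1 hr)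
  have h1 := P.mul hM hb hc hbc h hP
  rw [← mul_assoc, od_sq h.1, one_mul, mul_one] at h1
  refine h1.all hu hw ?_ hm'
  obtain ⟨i, hi⟩ := hn
  obtain ⟨j, hj⟩ := hk
  exact ⟨i + j, by omega⟩

end

/-- **Task PS6.** -/
theorem t_TWOS : S_TWOS := by
  intro hM hT b c d1 d2 d3 hb hc hbc hTri hC _
  obtain ⟨q1, q2, q3, k, hk⟩ := hTri
  have hd1 : d1 ≠ 0 := q1.ne_zero
  have hd2 : d2 ≠ 0 := q2.ne_zero
  suffices hL : L b c (d1 : ℚ_[2]) (d2 : ℚ_[2]) by
    refine Lk.congr hL (by exact_mod_cast hd1) (by exact_mod_cast hd2)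
      (mul_ne_zero (by exact_mod_cast hd1) (by exact_mod_cast hd2)) ⟨_, rfl⟩ ⟨_, rfl⟩ ?_
    refine ⟨(k : ℚ_[2]), ?_⟩
    rw [← pow_two]
    exact_mod_cast hk
  obtain ⟨hc4, hC⟩ := hC
  have hB := R.int b
  obtain ⟨q, hq, hQ⟩ := c16_class hc
  have hbo : Od (b : ZMod 8) := od_int (by omega)
  have t0 := P.tor0 hT hb hc hbc hq hQ
  set g : ℕ := padicValInt 2 c with hg
  have hg0 : c % 2 = 1 → g = 0 := by
    intro h
    refine padicValInt.eq_zero_of_not_dvd ?_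
    push_cast
    omega
  have hg2 : ∀ j : ℕ, j ≤ g → (2 : ℤ) ^ j ∣ c := by
    intro j hj
    have := (padicValInt_dvd_iff (p := 2) j c).2 (Or.inr hj)
    push_cast at this
    exact this
  have hD2 : R (d2 : ℚ_[2]) 0 (d2 : ZMod 8) := R.int d2
  have h81 : d2 % 8 = 1 ∨ d2 % 8 = 5 := by omega
  obtain ⟨k1, -, p1⟩ := P.unit hM hT hb hc hbc (r := 1) (by decide)
  obtain ⟨n1, hn1, pu⟩ := P.unit hM hT hb hc hbc (r := 1) (by decide)
  have e0 : ∀ d : ℤ, Squarefree d → ∃ (n : ℤ) (r : ZMod 8), Od r ∧ R d n r ∧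
      ((¬ (2 : ℤ) ∣ d ∧ n = 0) ∨ ((2 : ℤ) ∣ d ∧ n = 1)) := by
    intro d hd
    rcases int_class hd with ⟨a1, a2, a3⟩ | ⟨a1, t, a2, a3⟩
    · exact ⟨0, _, a2, a3, Or.inl ⟨a1, rfl⟩⟩
    · exact ⟨1, _, a2, a3, Or.inr ⟨a1, rfl⟩⟩
  obtain ⟨n, r, hr, hD1, hn⟩ := e0 d1 q1
  -- the class of `d2` is 1 and `d1` is odd
  have easy : d2 % 8 = 1 → n = 0 → L b c (d1 : ℚ_[2]) (d2 : ℚ_[2]) := by
    intro i1 i2
    rw [cast_mod i1, Int.cast_one] at hD2
    rw [i2] at hD1
    exact P.fin hM hT hb hc hbc pu hr hD1 hD2 (by rw [add_zero]; exact hn1) (by simp)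
  have hcast5 : d2 % 8 = 5 → R (d2 : ℚ_[2]) 0 5 := by
    intro i
    rw [cast_mod i] at hD2
    exact hD2
  have hcast1 : d2 % 8 = 1 → R (d2 : ℚ_[2]) 0 1 := by
    intro i
    rw [cast_mod i, Int.cast_one] at hD2
    exact hD2
  split_ifs at hC with i1 i2
  · -- c odd
    have hn0 : n = 0 := by tauto
    rcases h81 with h | h
    · exact easy h hn0
    · have hb8 : b % 8 = 1 ∨ b % 8 = 5 := by omega
      rcases hb8 with hb8 | hb8
      · -- the point with x = 4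
        have hx : R ((2 : ℚ_[2]) ^ (2 : ℤ) * ((1 : ℤ) : ℚ_[2])) 2 ((1 : ℤ) : ZMod 8) := by
          have := (R.int 1).shift 2
          rw [add_zero] at this
          exact this
        have hx1 := hB.add 2 hx (by norm_num)
        rw [add_comm] at hx1
        have hx2 := hx.add 2 hQ (by rw [hg0 i1]; norm_num)
        have hβ : (b : ZMod 8) = 1 := by rw [cast_mod hb8]; rfl
        rw [hβ, show (1 : ZMod 8) + 2 ^ 2 * ((1 : ℤ) : ZMod 8) = 5 from by decide] at hx1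
        have f1 : ((1 : ℤ) : ZMod 8) + 2 ^ 2 * q = 5 := by
          clear hQ hx1 hx2 t0
          revert q
          decide
        rw [f1] at hx2
        have pp : P b c 2 ((1 : ℤ) : ZMod 8) 5 := P.pt hx hx1 hx2 (by decide) (by decide)
          (by decide) (by decide) (by decide) (by decide)
        exact P.fin hM hT hb hc hbc pp hr hD1 (hcast5 h) (by rw [hn0]; decide) (by simp)
      · have hβ : (b : ZMod 8) = 5 := by rw [cast_mod hb8]; rfl
        rw [hβ, hg0 i1] at t0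
        exact P.fin hM hT hb hc hbc t0 hr hD1 (hcast5 h) (by rw [hn0]; decide) (by simp)
  · -- c even, b = 1 mod 8
    rcases hn with ⟨-, hn0⟩ | ⟨-, hn1'⟩
    · exact easy hC hn0
    · have hβ : (b : ZMod 8) = 1 := by rw [cast_mod i2]; rfl
      rcases Nat.even_or_odd g with hge | hgo
      · have hg3 : 2 ≤ g := by
          have h3 : ((2 : ℕ) : ℤ) ^ 1 ∣ c := by
            push_cast
            omega
          rw [padicValInt_dvd_iff] at h3
          have := h3.resolve_left hc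
          obtain ⟨j, hj⟩ := hge
          omega
        -- the point with x = 8
        have hx : R ((2 : ℚ_[2]) ^ (3 : ℤ) * ((1 : ℤ) : ℚ_[2])) 3 ((1 : ℤ) : ZMod 8) := by
          have := (R.int 1).shift 3
          rw [add_zero] at this
          exact this
        have hx1 := hB.add 3 hx (by norm_num)
        rw [add_comm] at hx1
        have hx2 := hx.add (1 + g) hQ (by push_cast; ring)
        rw [two_pow (k := 1 + g) (by omega), zero_mul, add_zero] at hx2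
        rw [hβ, show (1 : ZMod 8) + 2 ^ 3 * ((1 : ℤ) : ZMod 8) = 1 from by decide] at hx1
        have pp : P b c 3 ((1 : ℤ) : ZMod 8) 1 := P.pt hx hx1 hx2 (by decide) (by decide)
          (by decide) (by decide) (by decide) (by decide)
        exact P.fin hM hT hb hc hbc pp hr hD1 (hcast1 hC) (by rw [hn1']; decide) (by simp)
      · rw [hβ] at t0
        refine P.fin hM hT hb hc hbc t0 hr hD1 (hcast1 hC) ?_ (by simp)
        obtain ⟨j, hj⟩ := hgo
        exact ⟨j + 3, by omega⟩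
  · -- c even, b = 5 mod 8
    have hb8 : b % 8 = 5 := by omega
    have hβ : (b : ZMod 8) = 5 := by rw [cast_mod hb8]; rfl
    rcases h81 with h | h
    · refine easy h ?_
      rcases hn with ⟨-, hn0⟩ | ⟨h2, -⟩
      · exact hn0
      · exfalso
        have := (hC.1 h2).2
        omega
    · rw [hβ] at t0
      refine P.fin hM hT hb hc hbc t0 hr hD1 (hcast5 h) ?_ (by simp)
      rcases hn with ⟨h2, hn0⟩ | ⟨h2, hn1'⟩
      · have : ¬ Odd g := fun h3 => h2 (hC.2 ⟨h3, h⟩)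
        rw [Nat.not_odd_iff_even] at this
        obtain ⟨j, hj⟩ := this
        exact ⟨j + 2, by omega⟩
      · obtain ⟨j, hj⟩ := (hC.1 h2).1
        exact ⟨j + 3, by omega⟩

end Pool.Agent.K1H12.PS
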